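import Pool.Agent.H70.RZT.S
import Pool.Agent.H36.T1.ZSPL
import Pool.Agent.H40.T1.ZVAL

/-!
# RZT, module SPLN: infinitely many primes split completely
-/

set_option autoImplicit false

namespace Pool.RZT

open Polynomial Matrix NumberField IsDedekindDomain Pool.HYP Pool.TOW Pool.AVS Pool.T1 Pool.NF

namespace Spl3

variable {K : Type} [Field K] [NumberField K]

/-- An integer all of whose conjugates have absolute value greater than one is not a unit. -/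
theorem not_unit {w : 𝓞 K} (hw : ∀ σ : K →+* ℂ, 1 < ‖σ (w : K)‖) : ¬ IsUnit w := by
  intro hu
  rw [NumberField.isUnit_iff_norm] at hu
  have h1 : (algebraMap ℚ ℂ (Algebra.norm ℚ (w : K))) = ∏ σ : K →ₐ[ℚ] ℂ, σ (w : K) :=
    Algebra.norm_eq_prod_embeddings ℚ ℂ (w : K)
  have h2 : ‖(algebraMap ℚ ℂ (Algebra.norm ℚ (w : K)))‖ = 1 := by
    have h3 : ((RingOfIntegers.norm ℚ w : 𝓞 ℚ) : ℚ) = Algebra.norm ℚ (w : K) := rfl
    rw [h3] at hu
    rw [eq_ratCast, Complex.norm_ratCast]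
    have h4 : ((|Algebra.norm ℚ (w : K)| : ℚ) : ℝ) = 1 := by rw [hu]; norm_num
    rw [← h4]
    push_cast
    rfl
  rw [h1, norm_prod] at h2
  have h5 : (1 : ℝ) < ∏ σ : K →ₐ[ℚ] ℂ, ‖σ (w : K)‖ := by
    have hne : (Finset.univ : Finset (K →ₐ[ℚ] ℂ)).Nonempty := by
      rw [Finset.univ_nonempty_iff]
      have : Nonempty (K →+* ℂ) := inferInstance
      exact this.map RingHom.toRatAlgHom
    calc (1 : ℝ) = ∏ _σ : K →ₐ[ℚ] ℂ, (1 : ℝ) := by simp
      _ < ∏ σ : K →ₐ[ℚ] ℂ, ‖σ (w : K)‖ :=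
        Finset.prod_lt_prod_of_nonempty (fun _ _ => zero_lt_one)
          (fun σ _ => hw (σ : K →+* ℂ)) hne
  rw [h2] at h5
  exact lt_irrefl _ h5

/-- The values of a monic polynomial at large multiples of `m` are large. -/
theorem large {h : (𝓞 K)[X]} (hm : h.Monic) (hd : 0 < h.natDegree) {m : 𝓞 K} (hm0 : m ≠ 0)
    (c : 𝓞 K) : ∃ b : ℕ, ∀ σ : K →+* ℂ,
      ‖σ (c : K)‖ < ‖σ ((h.eval (m * (b : 𝓞 K)) : 𝓞 K) : K)‖ := by
  have h1 : ∀ σ : K →+* ℂ, ∀ᶠ b : ℕ in Filter.atTop,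
      ‖σ (c : K)‖ < ‖σ ((h.eval (m * (b : 𝓞 K)) : 𝓞 K) : K)‖ := by
    intro σ
    set φ : 𝓞 K →+* ℂ := σ.comp (algebraMap (𝓞 K) K) with hφ
    have hinj : Function.Injective φ :=
      σ.injective.comp (FaithfulSMul.algebraMap_injective (𝓞 K) K)
    have h2 : 0 < (h.map φ).degree := by
      rw [Polynomial.degree_map_eq_of_injective hinj]
      exact Polynomial.natDegree_pos_iff_degree_pos.1 hd
    have h3 : Filter.Tendsto (fun b : ℕ => ‖φ m * (b : ℂ)‖) Filter.atTop Filter.atTop := by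
      have h4 : (fun b : ℕ => ‖φ m * (b : ℂ)‖) = fun b : ℕ => ‖φ m‖ * (b : ℝ) := by
        funext b
        rw [norm_mul, Complex.norm_natCast]
      rw [h4]
      refine Filter.Tendsto.const_mul_atTop ?_ tendsto_natCast_atTop_atTop
      rw [norm_pos_iff]
      intro h5
      exact hm0 (hinj (h5.trans (map_zero φ).symm))
    have h6 := Polynomial.tendsto_norm_atTop (h.map φ) h2 h3
    have h7 := h6.eventually_gt_atTop ‖σ (c : K)‖
    refine h7.mono fun b hb => ?_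
    have h8 : (h.map φ).eval (φ m * (b : ℂ)) = φ (h.eval (m * (b : 𝓞 K))) := by
      rw [Polynomial.eval_map, ← Polynomial.eval₂_at_apply, map_mul, map_natCast]
    rw [h8] at hb
    exact hb
  have h9 := (Filter.eventually_all (ι := K →+* ℂ)).2 h1
  exact h9.exists

/-- A new prime, outside any finite set. -/
theorem new_prime {h : (𝓞 K)[X]} (hm : h.Monic) (hd : 0 < h.natDegree) (h0 : h.coeff 0 ≠ 0)
    (Q : 𝓞 K) (hQ : Q ≠ 0) :
    ∃ (P : HeightOneSpectrum (𝓞 K)) (a : 𝓞 K), Q ∉ P.asIdeal ∧ h.eval a ∈ P.asIdeal := by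
  classical
  set c0 : 𝓞 K := h.coeff 0 with hc0
  set m : 𝓞 K := c0 * Q with hmdef
  have hm0 : m ≠ 0 := mul_ne_zero h0 hQ
  obtain ⟨b, hb⟩ := large hm hd hm0 c0
  have h1 : h.eval (m * (b : 𝓞 K)) = c0 * (1 + Q * ((b : 𝓞 K) * h.divX.eval (m * (b : 𝓞 K)))) := by
    conv_lhs => rw [← Polynomial.divX_mul_X_add h]
    rw [Polynomial.eval_add, Polynomial.eval_mul, Polynomial.eval_X, Polynomial.eval_C, ← hc0,
      hmdef]
    ring
  set w : 𝓞 K := 1 + Q * ((b : 𝓞 K) * h.divX.eval (m * (b : 𝓞 K))) with hw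
  have hσ : ∀ σ : K →+* ℂ, 1 < ‖σ (w : K)‖ := by
    intro σ
    have h2 := hb σ
    rw [h1] at h2
    have h3 : σ (((c0 * w : 𝓞 K)) : K) = σ (c0 : K) * σ (w : K) := by
      rw [← map_mul]
      rfl
    rw [h3, norm_mul] at h2
    have h4 : 0 < ‖σ (c0 : K)‖ := by
      rw [norm_pos_iff]
      intro h5
      apply h0
      have h6 : (c0 : K) = 0 := σ.injective (h5.trans (map_zero σ).symm)
      exact RingOfIntegers.ext h6
    by_contra h5
    push Not at h5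
    have h6 : ‖σ (c0 : K)‖ * ‖σ (w : K)‖ ≤ ‖σ (c0 : K)‖ := by
      calc ‖σ (c0 : K)‖ * ‖σ (w : K)‖ ≤ ‖σ (c0 : K)‖ * 1 := by gcongr
        _ = ‖σ (c0 : K)‖ := mul_one _
    exact absurd h2 (not_lt.2 h6)
  have h3 : ¬ IsUnit w := not_unit hσ
  have h4 : w ≠ 0 := by
    intro hw0
    obtain ⟨σ⟩ : Nonempty (K →+* ℂ) := inferInstance
    have h5 := hσ σ
    rw [hw0] at h5
    have h6 : ((0 : 𝓞 K) : K) = 0 := rfl
    rw [h6, map_zero, norm_zero] at h5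
    exact absurd h5 (by norm_num)
  obtain ⟨M, hM, hMw⟩ := exists_max_ideal_of_mem_nonunits (mem_nonunits_iff.2 h3)
  have hMb : M ≠ ⊥ := by
    rintro rfl
    exact h4 (by simpa using hMw)
  refine ⟨⟨M, hM.isPrime, hMb⟩, m * (b : 𝓞 K), ?_, ?_⟩
  · intro hQM
    apply hM.ne_top
    rw [Ideal.eq_top_iff_one]
    have h5 : (1 : 𝓞 K) = w - Q * ((b : 𝓞 K) * h.divX.eval (m * (b : 𝓞 K))) := by
      rw [hw]
      ring
    rw [h5]
    exact Ideal.sub_mem _ hMw (Ideal.mul_mem_right _ _ hQM)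
  · rw [h1]
    exact Ideal.mul_mem_left _ _ hMw

end Spl3

/-- **SPLN**. -/
theorem spln : SPLNStmt := by
  intro K _ _ E _ _ hfd hgal A
  classical
  obtain ⟨h, δ, u, v, hm, hd, h0, hδ0, huv, hi, hdeg, hs⟩ :=
    ZSPL.prim (R := 𝓞 K) (K := K) E
  have hex : ∀ P : HeightOneSpectrum (𝓞 K), ∃ x ∈ P.asIdeal, x ≠ 0 :=
    fun P => Submodule.exists_mem_ne_zero_of_ne_bot P.ne_bot
  choose q hq hq0 using hex
  obtain ⟨P, a, hPQ, hPa⟩ := Spl3.new_prime hm hd h0 (δ * ∏ P ∈ A, q P)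
    (mul_ne_zero hδ0 (Finset.prod_ne_zero_iff.2 fun P _ => hq0 P))
  refine ⟨P, ?_, ?_⟩
  · intro hPA
    apply hPQ
    apply Ideal.mul_mem_left
    rw [← Finset.mul_prod_erase A q hPA]
    exact Ideal.mul_mem_right _ _ (hq P)
  · have hPδ : δ ∉ P.asIdeal := fun hP => hPQ (Ideal.mul_mem_right _ _ hP)
    exact ZSPL.spl_of hm huv hi hdeg hs hPδ hPa ((zval (𝓞 K) K).2.1 P).2

end Pool.RZT
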